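import Mathlib

/-!
# MP_9aa425_pr: the `L¹` mixing time of the averaging process is not `Θ(max (γ, n log n))`

For the graph `T m` on `n = 2 m + 1` vertices, which is the binary tree with `m` internal vertices
(heap numbering) together with all edges between its `m + 1` leaves, we prove
`t_{ε,1}(T m) ≥ (3/64) (log₂ n - 4) max (γ(T m), n log n)` for every `ε ∈ (0,1)`.
-/

namespace Pool.Agent.Results.MP_9aa425_pr.TreeClique

open Finset

section Defs

variable {V : Type} [Fintype V] [DecidableEq V]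

/-- Averaging along the pair `e`: every endpoint `x` of `e` receives the average of its own value and
of the value at the other endpoint of `e`; all other coordinates are unchanged. -/
noncomputable def avg (e : Sym2 V) (v : V → ℝ) : V → ℝ :=
  fun x => if h : x ∈ e then (v x + v (Sym2.Mem.other h)) / 2 else v x

variable (G : SimpleGraph V)

/-- The state `v(t)` of the averaging process on `G` started from `v`, when `e k` is the edge chosen
at step `k`, for `k = 0, …, t - 1`. -/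
noncomputable def state : (t : ℕ) → (Fin t → G.edgeSet) → (V → ℝ) → (V → ℝ)
  | 0, _, v => v
  | t + 1, e, v => avg (e (Fin.last t)).1 (state t (fun k => e k.castSucc) v)

/-- The `L¹` norm. -/
noncomputable def norm1 (v : V → ℝ) : ℝ := ∑ x, |v x|

/-- The mean of the coordinates of `v`. -/
noncomputable def mean (v : V → ℝ) : ℝ := (∑ x, v x) / Fintype.card V

variable [DecidableRel G.Adj]

/-- `𝔼 ‖v(t) - v̄‖₁` for the averaging process on `G` started from `v`: the `t` edges are independent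
and uniform, so the expectation is the average over all sequences of `t` edges. -/
noncomputable def expDist (t : ℕ) (v : V → ℝ) : ℝ :=
  (∑ e : Fin t → G.edgeSet, norm1 (fun x => state G t e v x - mean v)) /
    (Fintype.card (Fin t → G.edgeSet) : ℝ)

/-- The `L¹` mixing time `t_{ε,1}(G)`. -/
noncomputable def mixTime (ε : ℝ) : ℕ :=
  sInf {t : ℕ | ∀ v : V → ℝ, norm1 v = 1 → expDist G t v ≤ ε}

/-- The second smallest eigenvalue `λ₂(G)` of the Laplacian of `G` (the eigenvalues
`eigenvalues₀ 0 ≥ eigenvalues₀ 1 ≥ … ≥ eigenvalues₀ (n - 1)` are listed with multiplicity). -/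
noncomputable def lam2 [Nonempty V] : ℝ :=
  (G.posSemidef_lapMatrix ℝ).isHermitian.eigenvalues₀
    ⟨Fintype.card V - 2, by have := Fintype.card_pos (α := V); omega⟩

/-- `γ(G) = |E(G)| / λ₂(G)`. -/
noncomputable def gam [Nonempty V] : ℝ := (Fintype.card G.edgeSet : ℝ) / lam2 G

end Defs

/-- The graph `T m` on `{0, …, 2 m}`: the vertex `i < m` is joined to its two children `2 i + 1` and
`2 i + 2` (a binary tree with root `0`, internal vertices `0, …, m - 1` and leaves `m, …, 2 m`), and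
any two distinct leaves are joined. -/
def T (m : ℕ) : SimpleGraph (Fin (2 * m + 1)) where
  Adj i j := i ≠ j ∧ ((j : ℕ) = 2 * i + 1 ∨ (j : ℕ) = 2 * i + 2 ∨ (i : ℕ) = 2 * j + 1 ∨
    (i : ℕ) = 2 * j + 2 ∨ (m ≤ (i : ℕ) ∧ m ≤ (j : ℕ)))
  symm := ⟨by
    intro i j h
    refine ⟨h.1.symm, ?_⟩
    rcases h.2 with h | h | h | h | h
    · exact Or.inr (Or.inr (Or.inl h))
    · exact Or.inr (Or.inr (Or.inr (Or.inl h)))
    · exact Or.inl h
    · exact Or.inr (Or.inl h)
    · exact Or.inr (Or.inr (Or.inr (Or.inr h.symm)))⟩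
  loopless := ⟨fun _ h => h.1 rfl⟩

instance (m : ℕ) : DecidableRel (T m).Adj := fun i j =>
  inferInstanceAs (Decidable (i ≠ j ∧ ((j : ℕ) = 2 * i + 1 ∨ (j : ℕ) = 2 * i + 2 ∨
    (i : ℕ) = 2 * j + 1 ∨ (i : ℕ) = 2 * j + 2 ∨ (m ≤ (i : ℕ) ∧ m ≤ (j : ℕ)))))

section General

variable {V : Type} [Fintype V] [DecidableEq V] (G : SimpleGraph V) [DecidableRel G.Adj]

omit [Fintype V] in
lemma avg_edge {x y : V} (v : V → ℝ) : avg s(x, y) v x = (v x + v y) / 2 := by
  unfold avg
  have h : x ∈ s(x, y) := Sym2.mem_mk_left x y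
  rw [dif_pos h]
  have := Sym2.other_spec h
  rw [Sym2.congr_right] at this
  rw [this]

omit [Fintype V] in
lemma avg_not_mem {x : V} {e : Sym2 V} (h : x ∉ e) (v : V → ℝ) : avg e v x = v x := by
  unfold avg
  rw [dif_neg h]

lemma sum_avg (Φ : ℝ → ℝ) (v : V → ℝ) (x : V) :
    ∑ e : G.edgeSet, Φ (avg e.1 v x) =
      (Fintype.card G.edgeSet : ℝ) * Φ (v x) +
        ∑ y ∈ G.neighborFinset x, (Φ ((v x + v y) / 2) - Φ (v x)) := by
  have h1 : ∑ e : G.edgeSet, Φ (avg e.1 v x) =
      ∑ e : G.edgeSet, (Φ (v x) + (Φ (avg e.1 v x) - Φ (v x))) := by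
    apply Finset.sum_congr rfl; intros; ring
  rw [h1, Finset.sum_add_distrib]
  simp only [Finset.sum_const, Finset.card_univ, nsmul_eq_mul]
  congr 1
  have h2 : ∑ e : G.edgeSet, (Φ (avg e.1 v x) - Φ (v x)) =
      ∑ e ∈ G.edgeFinset, (Φ (avg e v x) - Φ (v x)) := by
    rw [← Finset.sum_coe_sort G.edgeFinset]
    apply Fintype.sum_equiv (Equiv.subtypeEquivRight (fun e => by simp))
    intro e
    rfl
  rw [h2]
  symm
  have h3 : ∑ e ∈ G.edgeFinset, (Φ (avg e v x) - Φ (v x)) =
      ∑ e ∈ G.edgeFinset.filter (fun e => x ∈ e), (Φ (avg e v x) - Φ (v x)) := by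
    rw [Finset.sum_filter]
    apply Finset.sum_congr rfl
    intro e _
    split_ifs with h
    · rfl
    · rw [avg_not_mem h]; ring
  rw [h3]
  apply Finset.sum_bij (fun y _ => s(x, y))
  · intro y hy
    rw [SimpleGraph.mem_neighborFinset] at hy
    simp [hy]
  · intro y _ z _ h
    rwa [Sym2.congr_right] at h
  · intro e he
    rw [Finset.mem_filter] at he
    refine ⟨Sym2.Mem.other he.2, ?_, Sym2.other_spec he.2⟩
    rw [SimpleGraph.mem_neighborFinset, ← SimpleGraph.mem_edgeSet, Sym2.other_spec he.2]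
    simpa using he.1
  · intro y _
    rw [avg_edge]

lemma sum_state_succ (t : ℕ) (v : V → ℝ) (F : (V → ℝ) → ℝ) :
    ∑ e : Fin (t + 1) → G.edgeSet, F (state G (t + 1) e v) =
      ∑ e : Fin t → G.edgeSet, ∑ e' : G.edgeSet, F (avg e'.1 (state G t e v)) := by
  rw [← (Fin.snocEquiv (fun _ : Fin (t + 1) => G.edgeSet)).sum_comp, Fintype.sum_prod_type,
    Finset.sum_comm]
  apply Finset.sum_congr rfl
  intro e _
  apply Finset.sum_congr rfl
  intro e' _
  simp [state, Fin.snocEquiv]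

omit [DecidableEq V] in
lemma sum_nbr_swap (F : V → V → ℝ) :
    ∑ x, ∑ y ∈ G.neighborFinset x, F x y = ∑ x, ∑ y ∈ G.neighborFinset x, F y x := by
  have h : ∀ (F : V → V → ℝ), ∑ x, ∑ y ∈ G.neighborFinset x, F x y =
      ∑ x, ∑ y, if G.Adj x y then F x y else 0 := by
    intro F
    apply Finset.sum_congr rfl
    intro x _
    rw [← Finset.sum_filter]
    apply Finset.sum_congr _ (fun _ _ => rfl)
    ext y
    simp
  rw [h, h (fun x y => F y x), Finset.sum_comm]
  apply Finset.sum_congr rfl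
  intro x _
  apply Finset.sum_congr rfl
  intro y _
  simp only [G.adj_comm x y]

/-- duality for one averaging step. -/
lemma sum_avg_dual (f v : V → ℝ) :
    ∑ e : G.edgeSet, ∑ x, f x * avg e.1 v x =
      (Fintype.card G.edgeSet : ℝ) * ∑ x, f x * v x -
        (1 / 2) * ∑ x, (∑ y ∈ G.neighborFinset x, (f x - f y)) * v x := by
  rw [Finset.sum_comm]
  have h : ∀ x, ∑ e : G.edgeSet, f x * avg e.1 v x =
      (Fintype.card G.edgeSet : ℝ) * (f x * v x) +
        ∑ y ∈ G.neighborFinset x, (f x * v y - f x * v x) / 2 := by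
    intro x
    rw [← Finset.mul_sum]
    have := sum_avg G id v x
    simp only [id] at this
    rw [this, mul_add, Finset.mul_sum]
    congr 1
    · ring
    · apply Finset.sum_congr rfl; intros; ring
  simp only [h]
  rw [Finset.sum_add_distrib, ← Finset.mul_sum]
  have h2 : ∑ x, ∑ y ∈ G.neighborFinset x, (f x * v y - f x * v x) / 2 =
      ∑ x, ∑ y ∈ G.neighborFinset x, (f y * v x - f x * v x) / 2 := by
    have h3 := sum_nbr_swap G (fun x y => f x * v y / 2)
    have h4 : ∀ (A : V → V → ℝ), ∑ x, ∑ y ∈ G.neighborFinset x, (A x y - f x * v x) / 2 =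
        ∑ x, ∑ y ∈ G.neighborFinset x, A x y / 2 -
          ∑ x, ∑ y ∈ G.neighborFinset x, f x * v x / 2 := by
      intro A
      rw [← Finset.sum_sub_distrib]
      apply Finset.sum_congr rfl; intro x _
      rw [← Finset.sum_sub_distrib]
      apply Finset.sum_congr rfl; intro y _
      ring
    rw [h4 (fun x y => f x * v y), h4 (fun x y => f y * v x), h3]
  rw [h2, sub_eq_add_neg]
  congr 1
  rw [← neg_mul, Finset.mul_sum]
  apply Finset.sum_congr rfl
  intro x _
  rw [Finset.sum_mul, Finset.mul_sum]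
  apply Finset.sum_congr rfl
  intro i _
  ring

lemma state_nonneg {V : Type} [Fintype V] [DecidableEq V] (G : SimpleGraph V) (v : V → ℝ)
    (hv : ∀ x, 0 ≤ v x) (t : ℕ) (e : Fin t → G.edgeSet) (x : V) : 0 ≤ state G t e v x := by
  induction t generalizing x with
  | zero => exact hv x
  | succ t ih =>
    unfold state avg
    split_ifs
    · have h1 := ih (fun k => e k.castSucc) x
      have h2 := fun y => ih (fun k => e k.castSucc) y
      have := h2 (Sym2.Mem.other ‹x ∈ ((e (Fin.last t)).1 : Sym2 V)›)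
      linarith
    · exact ih _ x

lemma sum_avg_mass {V : Type} [Fintype V] [DecidableEq V] (G : SimpleGraph V) (e : G.edgeSet)
    (v : V → ℝ) : ∑ x, avg e.1 v x = ∑ x, v x := by
  obtain ⟨e, he⟩ := e
  induction e using Sym2.ind with
  | _ i j =>
    have hij : i ≠ j := by
      rw [SimpleGraph.mem_edgeSet] at he
      exact he.ne
    have h : ∀ x, avg s(i, j) v x = v x + ((if x = i then (v j - v i) / 2 else 0) +
        (if x = j then (v i - v j) / 2 else 0)) := by
      intro x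
      by_cases h1 : x = i
      · subst h1
        rw [avg_edge, if_pos rfl, if_neg hij]; ring
      · by_cases h2 : x = j
        · subst h2
          rw [Sym2.eq_swap, avg_edge, if_neg h1, if_pos rfl]; ring
        · rw [avg_not_mem (by simp [h1, h2]), if_neg h1, if_neg h2]; ring
    simp only [h]
    rw [Finset.sum_add_distrib, Finset.sum_add_distrib, Finset.sum_ite_eq', Finset.sum_ite_eq']
    simp only [Finset.mem_univ, if_true]
    ring

lemma state_mass {V : Type} [Fintype V] [DecidableEq V] (G : SimpleGraph V) (v : V → ℝ) (t : ℕ)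
    (e : Fin t → G.edgeSet) : ∑ x, state G t e v x = ∑ x, v x := by
  induction t with
  | zero => rfl
  | succ t ih =>
    unfold state
    rw [sum_avg_mass, ih]

omit [DecidableEq V] in
lemma card_seq (t : ℕ) :
    (Fintype.card (Fin t → G.edgeSet) : ℝ) = (Fintype.card G.edgeSet : ℝ) ^ t := by
  simp

/-- drift bound: if `h` has drift at most `1 / |E|` in one step, then its mean grows at most
linearly. -/
lemma sum_state_drift (h v : V → ℝ) (hh : ∀ x, -2 ≤ ∑ y ∈ G.neighborFinset x, (h x - h y))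
    (hv : ∀ x, 0 ≤ v x) (hv1 : ∑ x, v x = 1) (hN : 1 ≤ Fintype.card G.edgeSet) (t : ℕ) :
    ∑ e : Fin t → G.edgeSet, ∑ x, h x * state G t e v x ≤
      (Fintype.card G.edgeSet : ℝ) ^ t * (∑ x, h x * v x + t / (Fintype.card G.edgeSet : ℝ)) := by
  have hN' : (1 : ℝ) ≤ (Fintype.card G.edgeSet : ℝ) := by exact_mod_cast hN
  induction t with
  | zero => simp [state]
  | succ t ih =>
    rw [sum_state_succ G t v (fun w => ∑ x, h x * w x)]
    have hs : ∀ e : Fin t → G.edgeSet,
        ∑ e' : G.edgeSet, ∑ x, h x * avg e'.1 (state G t e v) x ≤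
          (Fintype.card G.edgeSet : ℝ) * ∑ x, h x * state G t e v x + 1 := by
      intro e
      rw [sum_avg_dual]
      have h1 : ∑ x, (-2) * state G t e v x ≤
          ∑ x, (∑ y ∈ G.neighborFinset x, (h x - h y)) * state G t e v x := by
        apply Finset.sum_le_sum
        intro x _
        exact mul_le_mul_of_nonneg_right (hh x) (state_nonneg G v hv t e x)
      rw [← Finset.mul_sum, state_mass, hv1] at h1
      linarith
    refine (Finset.sum_le_sum (fun e _ => hs e)).trans ?_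
    rw [Finset.sum_add_distrib, ← Finset.mul_sum]
    simp only [Finset.sum_const, Finset.card_univ, nsmul_eq_mul]
    rw [card_seq]
    have h2 := mul_le_mul_of_nonneg_left ih (show (0 : ℝ) ≤ (Fintype.card G.edgeSet : ℝ) by linarith)
    have h3 : (Fintype.card G.edgeSet : ℝ) * ((Fintype.card G.edgeSet : ℝ) ^ t *
        (∑ x, h x * v x + t / (Fintype.card G.edgeSet : ℝ))) +
        (Fintype.card G.edgeSet : ℝ) ^ t * 1 =
        (Fintype.card G.edgeSet : ℝ) ^ (t + 1) *
          (∑ x, h x * v x + ((t + 1 : ℕ) : ℝ) / (Fintype.card G.edgeSet : ℝ)) := by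
      have : (Fintype.card G.edgeSet : ℝ) ≠ 0 := by linarith
      push_cast
      rw [pow_succ]
      field_simp
      ring
    linarith

/-- energy identity for one step. -/
lemma energy_step (a : ℝ) (w : V → ℝ) :
    ∑ e : G.edgeSet, ∑ x, (avg e.1 w x - a) ^ 2 =
      (Fintype.card G.edgeSet : ℝ) * ∑ x, (w x - a) ^ 2 -
        1 / 4 * ∑ x, ∑ y ∈ G.neighborFinset x, (w x - w y) ^ 2 := by
  rw [Finset.sum_comm]
  have h : ∀ x, ∑ e : G.edgeSet, (avg e.1 w x - a) ^ 2 =
      (Fintype.card G.edgeSet : ℝ) * (w x - a) ^ 2 +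
        (∑ y ∈ G.neighborFinset x, (1 / 2) * (w y - a) ^ 2 -
          ∑ y ∈ G.neighborFinset x, (1 / 2) * (w x - a) ^ 2 -
          (1 / 4) * ∑ y ∈ G.neighborFinset x, (w x - w y) ^ 2) := by
    intro x
    have := sum_avg G (fun z => (z - a) ^ 2) w x
    rw [this]
    congr 1
    rw [Finset.mul_sum, ← Finset.sum_sub_distrib, ← Finset.sum_sub_distrib]
    apply Finset.sum_congr rfl
    intro i _
    ring
  simp only [h]
  rw [Finset.sum_add_distrib, ← Finset.mul_sum, Finset.sum_sub_distrib, Finset.sum_sub_distrib,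
    ← Finset.mul_sum, sum_nbr_swap G (fun x y => (1 / 2) * (w y - a) ^ 2)]
  ring

lemma energy_bound (v : V → ℝ) (C : ℝ) (hC : 0 < C)
    (hP : ∀ w : V → ℝ, ∑ x, (w x - mean w) ^ 2 ≤
      C * ∑ x, ∑ y ∈ G.neighborFinset x, (w x - w y) ^ 2)
    (hN : 1 / (4 * C) ≤ Fintype.card G.edgeSet) (t : ℕ) :
    ∑ e : Fin t → G.edgeSet, ∑ x, (state G t e v x - mean v) ^ 2 ≤
      ((Fintype.card G.edgeSet : ℝ) - 1 / (4 * C)) ^ t * ∑ x, (v x - mean v) ^ 2 := by
  induction t with
  | zero => simp [state]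
  | succ t ih =>
    rw [sum_state_succ G t v (fun w => ∑ x, (w x - mean v) ^ 2)]
    have h : ∀ e : Fin t → G.edgeSet,
        ∑ e' : G.edgeSet, ∑ x, (avg e'.1 (state G t e v) x - mean v) ^ 2 ≤
          ((Fintype.card G.edgeSet : ℝ) - 1 / (4 * C)) *
            ∑ x, (state G t e v x - mean v) ^ 2 := by
      intro e
      rw [energy_step]
      have hm : mean (state G t e v) = mean v := by
        unfold mean
        rw [state_mass]
      have h1 := hP (state G t e v)
      rw [hm] at h1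
      have h2 : 1 / (4 * C) * ∑ x, (state G t e v x - mean v) ^ 2 ≤
          1 / 4 * ∑ x, ∑ y ∈ G.neighborFinset x, (state G t e v x - state G t e v y) ^ 2 := by
        have h3 := mul_le_mul_of_nonneg_left h1 (show 0 ≤ 1 / (4 * C) by positivity)
        refine h3.trans (le_of_eq ?_)
        field_simp
      linarith
    refine (Finset.sum_le_sum (fun e _ => h e)).trans ?_
    rw [← Finset.mul_sum, pow_succ]
    calc ((Fintype.card G.edgeSet : ℝ) - 1 / (4 * C)) *
          ∑ e : Fin t → G.edgeSet, ∑ x, (state G t e v x - mean v) ^ 2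
        ≤ ((Fintype.card G.edgeSet : ℝ) - 1 / (4 * C)) *
          (((Fintype.card G.edgeSet : ℝ) - 1 / (4 * C)) ^ t * ∑ x, (v x - mean v) ^ 2) :=
          mul_le_mul_of_nonneg_left ih (by linarith)
      _ = _ := by ring

omit [DecidableEq V] in
lemma initial_energy [Nonempty V] (v : V → ℝ) (hv : norm1 v = 1) :
    ∑ x, (v x - mean v) ^ 2 ≤ 1 := by
  have hn : (Fintype.card V : ℝ) ≠ 0 := by
    exact_mod_cast Fintype.card_ne_zero
  have h1 : ∑ x, (v x - mean v) ^ 2 = ∑ x, v x ^ 2 - (Fintype.card V : ℝ) * mean v ^ 2 := by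
    have h : ∀ x, (v x - mean v) ^ 2 = v x ^ 2 - 2 * mean v * v x + mean v ^ 2 := by intro x; ring
    simp only [h]
    rw [Finset.sum_add_distrib, Finset.sum_sub_distrib, ← Finset.mul_sum]
    simp only [Finset.sum_const, Finset.card_univ, nsmul_eq_mul]
    have h2 : ∑ x, v x = (Fintype.card V : ℝ) * mean v := by
      unfold mean
      field_simp
    rw [h2]
    ring
  have h2 : ∑ x, v x ^ 2 ≤ 1 := by
    calc ∑ x, v x ^ 2 ≤ ∑ x, |v x| := by
          apply Finset.sum_le_sum
          intro x _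
          have hx : |v x| ≤ 1 := by
            rw [← hv]
            exact Finset.single_le_sum (f := fun x => |v x|) (fun y _ => abs_nonneg _)
              (Finset.mem_univ x)
          rw [← sq_abs]
          nlinarith [abs_nonneg (v x)]
      _ = 1 := hv
  have h3 : 0 ≤ (Fintype.card V : ℝ) * mean v ^ 2 := by positivity
  linarith

/-- The mixing time is attained once a Poincaré inequality holds. -/
lemma mix_nonempty [Nonempty V] (C : ℝ) (hC : 0 < C)
    (hP : ∀ w : V → ℝ, ∑ x, (w x - mean w) ^ 2 ≤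
      C * ∑ x, ∑ y ∈ G.neighborFinset x, (w x - w y) ^ 2)
    (hN : 1 / (4 * C) ≤ Fintype.card G.edgeSet) (ε : ℝ) (hε : 0 < ε) :
    ∃ t : ℕ, ∀ v : V → ℝ, norm1 v = 1 → expDist G t v ≤ ε := by
  set N : ℝ := (Fintype.card G.edgeSet : ℝ) with hNdef
  have hc0 : 0 < 1 / (4 * C) := by positivity
  have hN0 : 0 < N := by linarith
  have hp : (0 : ℝ) < (Fintype.card V : ℝ) := by
    exact_mod_cast Fintype.card_pos
  obtain ⟨t, ht⟩ := exists_pow_lt_of_lt_one (show (0 : ℝ) < ε ^ 2 / (Fintype.card V : ℝ) by positivity)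
    (show 1 - 1 / (4 * C) / N < 1 by
      have : 0 < 1 / (4 * C) / N := by positivity
      linarith)
  refine ⟨t, fun v hv => ?_⟩
  have hNt : 0 < N ^ t := by positivity
  unfold expDist
  rw [card_seq, ← hNdef, div_le_iff₀ hNt]
  set δ : ℝ := ε / (Fintype.card V : ℝ) with hδ
  have hδ0 : 0 < δ := by positivity
  have hone : ∀ z : ℝ, |z| ≤ δ / 2 + z ^ 2 / (2 * δ) := by
    intro z
    have h0 : 0 ≤ (|z| - δ) ^ 2 / (2 * δ) := by positivity
    have h1 : (|z| - δ) ^ 2 / (2 * δ) = z ^ 2 / (2 * δ) + δ / 2 - |z| := by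
      have : (|z| - δ) ^ 2 = z ^ 2 + δ ^ 2 - 2 * δ * |z| := by
        rw [← sq_abs z]; ring
      rw [this]
      field_simp
    linarith
  have h1 : ∀ e : Fin t → G.edgeSet, norm1 (fun x => state G t e v x - mean v) ≤
      ε / 2 + (∑ x, (state G t e v x - mean v) ^ 2) / (2 * δ) := by
    intro e
    unfold norm1
    refine (Finset.sum_le_sum (fun x _ => hone _)).trans ?_
    rw [Finset.sum_add_distrib]
    simp only [← Finset.sum_div]
    simp only [Finset.sum_const, Finset.card_univ, nsmul_eq_mul]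
    apply le_of_eq
    congr 1
    rw [hδ]
    field_simp
  refine (Finset.sum_le_sum (fun e _ => h1 e)).trans ?_
  rw [Finset.sum_add_distrib]
  simp only [← Finset.sum_div]
  simp only [Finset.sum_const, Finset.card_univ, nsmul_eq_mul]
  rw [card_seq, ← hNdef]
  have h2 := energy_bound G v C hC hP hN t
  rw [← hNdef] at h2
  have h3 := initial_energy v hv
  have h4 : (N - 1 / (4 * C)) ^ t * ∑ x, (v x - mean v) ^ 2 ≤ (N - 1 / (4 * C)) ^ t := by
    have : 0 ≤ (N - 1 / (4 * C)) ^ t := pow_nonneg (by linarith) _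
    nlinarith
  have h5 : (N - 1 / (4 * C)) ^ t = (1 - 1 / (4 * C) / N) ^ t * N ^ t := by
    rw [← mul_pow]
    congr 1
    field_simp
  have h6 : (1 - 1 / (4 * C) / N) ^ t * N ^ t ≤ ε ^ 2 / (Fintype.card V : ℝ) * N ^ t :=
    mul_le_mul_of_nonneg_right ht.le hNt.le
  have h7 : (∑ e : Fin t → G.edgeSet, ∑ x, (state G t e v x - mean v) ^ 2) / (2 * δ) ≤
      (ε ^ 2 / (Fintype.card V : ℝ) * N ^ t) / (2 * δ) := by
    apply div_le_div_of_nonneg_right _ (by positivity)
    linarith
  have h8 : (ε ^ 2 / (Fintype.card V : ℝ) * N ^ t) / (2 * δ) = ε / 2 * N ^ t := by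
    rw [hδ]
    field_simp
  linarith

lemma lap_quadratic (v : V → ℝ) :
    ∑ x, v x * (G.lapMatrix ℝ).mulVec v x =
      1 / 2 * ∑ x, ∑ y ∈ G.neighborFinset x, (v x - v y) ^ 2 := by
  have h : ∀ x, (G.lapMatrix ℝ).mulVec v x = ∑ y ∈ G.neighborFinset x, (v x - v y) := by
    intro x
    rw [SimpleGraph.lapMatrix_mulVec_apply, Finset.sum_sub_distrib]
    simp
  simp only [h]
  have h2 : ∑ x, ∑ y ∈ G.neighborFinset x, (v x - v y) ^ 2 =
      ∑ x, ∑ y ∈ G.neighborFinset x, v x * (v x - v y) +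
        ∑ x, ∑ y ∈ G.neighborFinset x, v y * (v y - v x) := by
    rw [← Finset.sum_add_distrib]
    apply Finset.sum_congr rfl; intro x _
    rw [← Finset.sum_add_distrib]
    apply Finset.sum_congr rfl; intro i _
    ring
  rw [h2, sum_nbr_swap G (fun x y => v y * (v y - v x))]
  simp only [← Finset.mul_sum]
  ring

/-- A Poincaré inequality bounds the second smallest eigenvalue from below. -/
lemma le_lam2 [Nonempty V] (hcard : 2 ≤ Fintype.card V) (C : ℝ) (hC : 0 < C)
    (hP : ∀ w : V → ℝ, ∑ x, (w x - mean w) ^ 2 ≤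
      C * ∑ x, ∑ y ∈ G.neighborFinset x, (w x - w y) ^ 2) : 1 / (2 * C) ≤ lam2 G := by
  by_contra hlt
  push Not at hlt
  unfold lam2 at hlt
  set H := (G.posSemidef_lapMatrix ℝ).isHermitian with hH
  let E := (Fintype.equivOfCardEq (Fintype.card_fin (Fintype.card V)) :
    Fin (Fintype.card V) ≃ V)
  let i2 : Fin (Fintype.card V) := ⟨Fintype.card V - 2, by omega⟩
  let i1 : Fin (Fintype.card V) := ⟨Fintype.card V - 1, by omega⟩
  have hle : i2 ≤ i1 := by
    show Fintype.card V - 2 ≤ Fintype.card V - 1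
    omega
  have hne : i2 ≠ i1 := by
    intro h
    have := congrArg Fin.val h
    simp only [i2, i1] at this
    omega
  have l2 : H.eigenvalues (E i2) < 1 / (2 * C) := by
    unfold Matrix.IsHermitian.eigenvalues
    simp only [E, Equiv.symm_apply_apply]
    exact hlt
  have l1 : H.eigenvalues (E i1) < 1 / (2 * C) := by
    unfold Matrix.IsHermitian.eigenvalues
    simp only [E, Equiv.symm_apply_apply]
    exact lt_of_le_of_lt (H.eigenvalues₀_antitone hle) hlt
  set b1 : V → ℝ := ⇑(H.eigenvectorBasis (E i1)) with hb1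
  set b2 : V → ℝ := ⇑(H.eigenvectorBasis (E i2)) with hb2
  have ev1 : (G.lapMatrix ℝ).mulVec b1 = H.eigenvalues (E i1) • b1 :=
    H.mulVec_eigenvectorBasis (E i1)
  have ev2 : (G.lapMatrix ℝ).mulVec b2 = H.eigenvalues (E i2) • b2 :=
    H.mulVec_eigenvectorBasis (E i2)
  have on := H.eigenvectorBasis.orthonormal
  have n1 : ∑ x, b1 x ^ 2 = 1 := by
    have := on.1 (E i1)
    have h2 : inner ℝ (H.eigenvectorBasis (E i1)) (H.eigenvectorBasis (E i1)) = (1 : ℝ) := by
      rw [real_inner_self_eq_norm_sq, this]; norm_num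
    rw [PiLp.inner_apply] at h2
    simpa using h2
  have n2 : ∑ x, b2 x ^ 2 = 1 := by
    have := on.1 (E i2)
    have h2 : inner ℝ (H.eigenvectorBasis (E i2)) (H.eigenvectorBasis (E i2)) = (1 : ℝ) := by
      rw [real_inner_self_eq_norm_sq, this]; norm_num
    rw [PiLp.inner_apply] at h2
    simpa using h2
  have o12 : ∑ x, b1 x * b2 x = 0 := by
    have h2 : inner ℝ (H.eigenvectorBasis (E i1)) (H.eigenvectorBasis (E i2)) = (0 : ℝ) :=
      on.2 (fun h => hne (E.injective h).symm)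
    rw [PiLp.inner_apply] at h2
    simpa [mul_comm] using h2
  set c1 : ℝ := ∑ x, b1 x with hc1
  set c2 : ℝ := ∑ x, b2 x with hc2
  set a1 : ℝ := H.eigenvalues (E i1) with ha1
  set a2 : ℝ := H.eigenvalues (E i2) with ha2
  have ineq : ∀ p q : ℝ, p * c1 + q * c2 = 0 →
      (1 / (2 * C)) * (p ^ 2 + q ^ 2) ≤ p ^ 2 * a1 + q ^ 2 * a2 := by
    intro p q hpq
    have hP1 := hP (p • b1 + q • b2)
    have s1 : ∑ x, (p • b1 + q • b2) x = 0 := by
      simp only [Pi.add_apply, Pi.smul_apply, smul_eq_mul, Finset.sum_add_distrib,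
        ← Finset.mul_sum]
      exact hpq
    have s0 : mean (p • b1 + q • b2) = 0 := by
      unfold mean
      rw [s1, zero_div]
    simp only [s0, sub_zero] at hP1
    have s2 : ∑ x, (p • b1 + q • b2) x ^ 2 = p ^ 2 + q ^ 2 := by
      have : ∀ x, (p • b1 + q • b2) x ^ 2 =
          p ^ 2 * b1 x ^ 2 + q ^ 2 * b2 x ^ 2 + 2 * p * q * (b1 x * b2 x) := by
        intro x
        simp only [Pi.add_apply, Pi.smul_apply, smul_eq_mul]
        ring
      simp only [this, Finset.sum_add_distrib, ← Finset.mul_sum, n1, n2, o12]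
      ring
    have s3 : ∑ x, (p • b1 + q • b2) x * (p • a1 • b1 + q • a2 • b2) x =
        p ^ 2 * a1 + q ^ 2 * a2 := by
      have : ∀ x, (p • b1 + q • b2) x * (p • a1 • b1 + q • a2 • b2) x =
          p ^ 2 * a1 * b1 x ^ 2 + q ^ 2 * a2 * b2 x ^ 2 +
            (p * q * (a1 + a2)) * (b1 x * b2 x) := by
        intro x
        simp only [Pi.add_apply, Pi.smul_apply, smul_eq_mul]
        ring
      simp only [this, Finset.sum_add_distrib, ← Finset.mul_sum, n1, n2, o12]
      ring
    have hQ := lap_quadratic G (p • b1 + q • b2)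
    rw [Matrix.mulVec_add, Matrix.mulVec_smul, Matrix.mulVec_smul, ev1, ev2, s3] at hQ
    rw [s2] at hP1
    have h5 : p ^ 2 + q ^ 2 ≤ 2 * C * (p ^ 2 * a1 + q ^ 2 * a2) := by
      rw [hQ]
      linarith
    have h6 := mul_le_mul_of_nonneg_left h5 (show 0 ≤ 1 / (2 * C) by positivity)
    refine h6.trans (le_of_eq ?_)
    field_simp
  have hA := ineq c2 (-c1) (by ring)
  have hc10 : c1 = 0 := by
    by_contra h
    have h0 : 0 < c1 ^ 2 := by positivity
    have h1 := mul_pos (sub_pos.2 l2) h0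
    have h2 := mul_nonneg (sub_pos.2 l1).le (sq_nonneg c2)
    nlinarith
  have hB := ineq 1 0 (by rw [hc10]; ring)
  have : 1 / (2 * C) ≤ a1 := by linarith
  linarith

end General


/-! ### The Poincaré inequality for `T m` -/

lemma sum_heap (m : ℕ) (F : ℕ → ℝ) :
    ∑ j ∈ range (2 * m + 1), F j = F 0 + ∑ i ∈ range m, (F (2 * i + 1) + F (2 * i + 2)) := by
  induction m with
  | zero => simp
  | succ m ih =>
    have : 2 * (m + 1) + 1 = 2 * m + 1 + 1 + 1 := by ring
    rw [this, Finset.sum_range_succ, Finset.sum_range_succ, ih, Finset.sum_range_succ]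
    ring

lemma sum_var (s : Finset ℕ) (g : ℕ → ℝ) (hs : 0 < s.card) :
    ∑ i ∈ s, (g i - (∑ j ∈ s, g j) / s.card) ^ 2 =
      (∑ i ∈ s, ∑ j ∈ s, (g i - g j) ^ 2) / (2 * s.card) := by
  have hs' : (0 : ℝ) < s.card := by exact_mod_cast hs
  set A := ∑ j ∈ s, g j with hA
  set B := ∑ j ∈ s, g j ^ 2 with hB
  have h1 : ∑ i ∈ s, (g i - A / s.card) ^ 2 = B - 2 * (A / s.card) * A + s.card * (A / s.card) ^ 2 := by
    have : ∀ i, (g i - A / s.card) ^ 2 = g i ^ 2 - 2 * (A / s.card) * g i + (A / s.card) ^ 2 := by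
      intro i; ring
    simp only [this]
    rw [Finset.sum_add_distrib, Finset.sum_sub_distrib, ← Finset.mul_sum]
    simp only [Finset.sum_const, nsmul_eq_mul]
    rfl
  have h2 : ∑ i ∈ s, ∑ j ∈ s, (g i - g j) ^ 2 = 2 * s.card * B - 2 * A * A := by
    have : ∀ i j, (g i - g j) ^ 2 = g i ^ 2 - 2 * g i * g j + g j ^ 2 := by intro i j; ring
    simp only [this, Finset.sum_add_distrib, Finset.sum_sub_distrib, ← Finset.mul_sum,
      ← Finset.sum_mul, Finset.sum_const, nsmul_eq_mul]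
    rw [← hA, ← hB]
    ring
  rw [h1, h2]
  field_simp
  ring

lemma poincare_nat (m : ℕ) (g : ℕ → ℝ) :
    ∑ j ∈ range (2 * m + 1), (g j - (∑ j ∈ Ico m (2 * m + 1), g j) / ((m : ℝ) + 1)) ^ 2 ≤
      6 * (∑ i ∈ range m, ((g i - g (2 * i + 1)) ^ 2 + (g i - g (2 * i + 2)) ^ 2)) +
        2 * ((∑ i ∈ Ico m (2 * m + 1), ∑ j ∈ Ico m (2 * m + 1), (g i - g j) ^ 2) /
          ((m : ℝ) + 1)) := by
  set a := (∑ j ∈ Ico m (2 * m + 1), g j) / ((m : ℝ) + 1) with ha
  have hcard : (Ico m (2 * m + 1)).card = m + 1 := by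
    rw [Nat.card_Ico]; omega
  have hv := sum_var (Ico m (2 * m + 1)) g (by omega)
  rw [hcard] at hv
  push_cast at hv
  rw [← ha] at hv
  set Cl := ∑ i ∈ Ico m (2 * m + 1), ∑ j ∈ Ico m (2 * m + 1), (g i - g j) ^ 2 with hCl
  have hsplit : ∑ j ∈ range (2 * m + 1), (g j - a) ^ 2 =
      ∑ j ∈ range m, (g j - a) ^ 2 + ∑ j ∈ Ico m (2 * m + 1), (g j - a) ^ 2 := by
    rw [Finset.range_eq_Ico, Finset.range_eq_Ico,
      Finset.sum_Ico_consecutive _ (Nat.zero_le m) (by omega)]
  have hheap := sum_heap m (fun j => (g j - a) ^ 2)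
  have hstep : 2 * ∑ j ∈ range m, (g j - a) ^ 2 ≤
      3 / 2 * ∑ i ∈ range m, ((g (2 * i + 1) - a) ^ 2 + (g (2 * i + 2) - a) ^ 2) +
      3 * ∑ i ∈ range m, ((g i - g (2 * i + 1)) ^ 2 + (g i - g (2 * i + 2)) ^ 2) := by
    rw [Finset.mul_sum, Finset.mul_sum, Finset.mul_sum, ← Finset.sum_add_distrib]
    apply Finset.sum_le_sum
    intro i _
    have key : ∀ x y z : ℝ, (x - z) ^ 2 ≤ 3 / 2 * (y - z) ^ 2 + 3 * (x - y) ^ 2 := by
      intro x y z
      nlinarith [sq_nonneg ((y - z) - 2 * (x - y))]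
    have h1 := key (g i) (g (2 * i + 1)) a
    have h2 := key (g i) (g (2 * i + 2)) a
    linarith
  have h0 : 0 ≤ (g 0 - a) ^ 2 := sq_nonneg _
  set Tt := ∑ j ∈ range (2 * m + 1), (g j - a) ^ 2 with hTt
  set Et := ∑ i ∈ range m, ((g i - g (2 * i + 1)) ^ 2 + (g i - g (2 * i + 2)) ^ 2) with hEt
  have hm : (0 : ℝ) < (m : ℝ) + 1 := by positivity
  have hcl2 : Cl / (2 * ((m : ℝ) + 1)) = (Cl / ((m : ℝ) + 1)) / 2 := by
    field_simp
  rw [hcl2] at hv
  linarith

lemma sum_nbr_T (m : ℕ) (F : ℕ → ℕ → ℝ) :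
    ∑ x : Fin (2 * m + 1), ∑ y ∈ (T m).neighborFinset x, F x y =
      ∑ i ∈ range (2 * m + 1), ∑ j ∈ range (2 * m + 1), (if i ≠ j ∧ (j = 2 * i + 1 ∨
        j = 2 * i + 2 ∨ i = 2 * j + 1 ∨ i = 2 * j + 2 ∨ (m ≤ i ∧ m ≤ j)) then F i j else 0) := by
  rw [Finset.sum_range (fun i => ∑ j ∈ range (2 * m + 1), (if i ≠ j ∧ (j = 2 * i + 1 ∨
        j = 2 * i + 2 ∨ i = 2 * j + 1 ∨ i = 2 * j + 2 ∨ (m ≤ i ∧ m ≤ j)) then F i j else 0))]
  apply Finset.sum_congr rfl
  intro x _
  rw [Finset.sum_range (fun j => (if (x : ℕ) ≠ j ∧ (j = 2 * (x : ℕ) + 1 ∨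
        j = 2 * (x : ℕ) + 2 ∨ (x : ℕ) = 2 * j + 1 ∨ (x : ℕ) = 2 * j + 2 ∨ (m ≤ (x : ℕ) ∧ m ≤ j))
        then F x j else 0)), ← Finset.sum_filter]
  apply Finset.sum_congr _ (fun _ _ => rfl)
  ext y
  rw [SimpleGraph.mem_neighborFinset, Finset.mem_filter]
  constructor
  · intro h
    exact ⟨Finset.mem_univ _, fun h' => h.1 (Fin.ext h'), h.2⟩
  · rintro ⟨_, h1, h2⟩
    exact ⟨fun h' => h1 (congrArg Fin.val h'), h2⟩

lemma energy_lower (m : ℕ) (g : ℕ → ℝ) :
    2 * (∑ i ∈ range m, ((g i - g (2 * i + 1)) ^ 2 + (g i - g (2 * i + 2)) ^ 2)) +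
      ∑ i ∈ Ico m (2 * m + 1), ∑ j ∈ Ico m (2 * m + 1), (g i - g j) ^ 2 ≤
    ∑ x : Fin (2 * m + 1), ∑ y ∈ (T m).neighborFinset x, (g x - g y) ^ 2 := by
  rw [sum_nbr_T m (fun i j => (g i - g j) ^ 2)]
  have hpt : ∑ i ∈ range (2 * m + 1), ∑ j ∈ range (2 * m + 1),
      ((if j = 2 * i + 1 then (g i - g j) ^ 2 else 0) +
       (if j = 2 * i + 2 then (g i - g j) ^ 2 else 0) +
       (if i = 2 * j + 1 then (g i - g j) ^ 2 else 0) +
       (if i = 2 * j + 2 then (g i - g j) ^ 2 else 0) +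
       (if m ≤ i ∧ m ≤ j then (g i - g j) ^ 2 else 0)) ≤
      ∑ i ∈ range (2 * m + 1), ∑ j ∈ range (2 * m + 1), (if i ≠ j ∧ (j = 2 * i + 1 ∨
        j = 2 * i + 2 ∨ i = 2 * j + 1 ∨ i = 2 * j + 2 ∨ (m ≤ i ∧ m ≤ j))
        then (g i - g j) ^ 2 else 0) := by
    apply Finset.sum_le_sum
    intro i hi
    apply Finset.sum_le_sum
    intro j hj
    rw [Finset.mem_range] at hi hj
    by_cases hij : i = j
    · subst hij
      simp
    · have hq : 0 ≤ (g i - g j) ^ 2 := sq_nonneg _
      by_cases h1 : j = 2 * i + 1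
      · rw [if_pos h1, if_neg (by omega), if_neg (by omega), if_neg (by omega), if_neg (by omega),
          if_pos ⟨hij, Or.inl h1⟩]
        simp
      · by_cases h2 : j = 2 * i + 2
        · rw [if_neg h1, if_pos h2, if_neg (by omega), if_neg (by omega), if_neg (by omega),
            if_pos ⟨hij, Or.inr (Or.inl h2)⟩]
          simp
        · by_cases h3 : i = 2 * j + 1
          · rw [if_neg h1, if_neg h2, if_pos h3, if_neg (by omega), if_neg (by omega),
              if_pos ⟨hij, Or.inr (Or.inr (Or.inl h3))⟩]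
            simp
          · by_cases h4 : i = 2 * j + 2
            · rw [if_neg h1, if_neg h2, if_neg h3, if_pos h4, if_neg (by omega),
                if_pos ⟨hij, Or.inr (Or.inr (Or.inr (Or.inl h4)))⟩]
              simp
            · by_cases h5 : m ≤ i ∧ m ≤ j
              · rw [if_neg h1, if_neg h2, if_neg h3, if_neg h4, if_pos h5,
                  if_pos ⟨hij, Or.inr (Or.inr (Or.inr (Or.inr h5)))⟩]
                simp
              · rw [if_neg h1, if_neg h2, if_neg h3, if_neg h4, if_neg h5,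
                  if_neg (by tauto)]
                simp
  refine le_trans ?_ hpt
  simp only [Finset.sum_add_distrib]
  have hsub : range m ⊆ range (2 * m + 1) := by
    intro i hi; rw [Finset.mem_range] at *; omega
  have hA : ∀ (c : ℕ) (hc : c = 1 ∨ c = 2), ∑ i ∈ range m, (g i - g (2 * i + c)) ^ 2 ≤
      ∑ i ∈ range (2 * m + 1), ∑ j ∈ range (2 * m + 1),
        (if j = 2 * i + c then (g i - g j) ^ 2 else 0) := by
    intro c hc
    have : ∀ i, ∑ j ∈ range (2 * m + 1), (if j = 2 * i + c then (g i - g j) ^ 2 else 0) =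
        if 2 * i + c ∈ range (2 * m + 1) then (g i - g (2 * i + c)) ^ 2 else 0 := by
      intro i
      rw [Finset.sum_ite_eq']
    simp only [this]
    calc ∑ i ∈ range m, (g i - g (2 * i + c)) ^ 2 =
        ∑ i ∈ range m, (if 2 * i + c ∈ range (2 * m + 1) then (g i - g (2 * i + c)) ^ 2 else 0) := by
          apply Finset.sum_congr rfl
          intro i hi
          rw [Finset.mem_range] at hi
          rw [if_pos (Finset.mem_range.2 (by omega))]
      _ ≤ _ := by
          apply Finset.sum_le_sum_of_subset_of_nonneg hsub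
          intro i _ _
          split_ifs
          · exact sq_nonneg _
          · exact le_rfl
  have hB : ∀ (c : ℕ) (hc : c = 1 ∨ c = 2), ∑ i ∈ range m, (g i - g (2 * i + c)) ^ 2 ≤
      ∑ i ∈ range (2 * m + 1), ∑ j ∈ range (2 * m + 1),
        (if i = 2 * j + c then (g i - g j) ^ 2 else 0) := by
    intro c hc
    rw [Finset.sum_comm]
    refine (hA c hc).trans (le_of_eq ?_)
    apply Finset.sum_congr rfl; intro i _
    apply Finset.sum_congr rfl; intro j _
    split_ifs
    · ring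
    · rfl
  have hC : ∑ i ∈ Ico m (2 * m + 1), ∑ j ∈ Ico m (2 * m + 1), (g i - g j) ^ 2 ≤
      ∑ i ∈ range (2 * m + 1), ∑ j ∈ range (2 * m + 1),
        (if m ≤ i ∧ m ≤ j then (g i - g j) ^ 2 else 0) := by
    have hs2 : Ico m (2 * m + 1) ⊆ range (2 * m + 1) := by
      intro i hi; rw [Finset.mem_range]; rw [Finset.mem_Ico] at hi; omega
    have hnn : ∀ i j : ℕ, 0 ≤ (if m ≤ i ∧ m ≤ j then (g i - g j) ^ 2 else 0 : ℝ) := by
      intro i j
      split_ifs
      · exact sq_nonneg _
      · exact le_rfl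
    calc ∑ i ∈ Ico m (2 * m + 1), ∑ j ∈ Ico m (2 * m + 1), (g i - g j) ^ 2 =
        ∑ i ∈ Ico m (2 * m + 1), ∑ j ∈ Ico m (2 * m + 1),
          (if m ≤ i ∧ m ≤ j then (g i - g j) ^ 2 else 0) := by
          apply Finset.sum_congr rfl; intro i hi
          apply Finset.sum_congr rfl; intro j hj
          rw [Finset.mem_Ico] at hi hj
          rw [if_pos ⟨hi.1, hj.1⟩]
      _ ≤ ∑ i ∈ Ico m (2 * m + 1), ∑ j ∈ range (2 * m + 1),
          (if m ≤ i ∧ m ≤ j then (g i - g j) ^ 2 else 0) := by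
          apply Finset.sum_le_sum; intro i _
          exact Finset.sum_le_sum_of_subset_of_nonneg hs2 (fun j _ _ => hnn i j)
      _ ≤ _ := Finset.sum_le_sum_of_subset_of_nonneg hs2
          (fun i _ _ => Finset.sum_nonneg (fun j _ => hnn i j))
  have a1 := hA 1 (Or.inl rfl)
  have a2 := hA 2 (Or.inr rfl)
  have b1 := hB 1 (Or.inl rfl)
  have b2 := hB 2 (Or.inr rfl)
  linarith

lemma mean_min {V : Type} [Fintype V] [Nonempty V] (w : V → ℝ) (a : ℝ) :
    ∑ x, (w x - mean w) ^ 2 ≤ ∑ x, (w x - a) ^ 2 := by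
  have hn : (Fintype.card V : ℝ) ≠ 0 := by
    exact_mod_cast Fintype.card_ne_zero
  have h2 : ∑ x, w x = (Fintype.card V : ℝ) * mean w := by
    unfold mean
    field_simp
  have h : ∀ b : ℝ, ∑ x, (w x - b) ^ 2 =
      ∑ x, w x ^ 2 - 2 * b * ((Fintype.card V : ℝ) * mean w) + (Fintype.card V : ℝ) * b ^ 2 := by
    intro b
    have h : ∀ x, (w x - b) ^ 2 = w x ^ 2 - 2 * b * w x + b ^ 2 := by intro x; ring
    simp only [h]
    rw [Finset.sum_add_distrib, Finset.sum_sub_distrib, ← Finset.mul_sum, h2]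
    simp only [Finset.sum_const, Finset.card_univ, nsmul_eq_mul]
  rw [h, h]
  have : 0 ≤ (Fintype.card V : ℝ) * (a - mean w) ^ 2 := by positivity
  nlinarith

/-- **Poincaré inequality for `T m`.** -/
lemma poincare_T (m : ℕ) (w : Fin (2 * m + 1) → ℝ) :
    ∑ x, (w x - mean w) ^ 2 ≤ 3 * ∑ x, ∑ y ∈ (T m).neighborFinset x, (w x - w y) ^ 2 := by
  set g : ℕ → ℝ := fun i => if h : i < 2 * m + 1 then w ⟨i, h⟩ else 0 with hg
  have hgw : ∀ x : Fin (2 * m + 1), g x = w x := by
    intro x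
    simp only [hg]
    rw [dif_pos x.2]
  set a := (∑ j ∈ Ico m (2 * m + 1), g j) / ((m : ℝ) + 1) with ha
  refine (mean_min w a).trans ?_
  have h1 := poincare_nat m g
  rw [← ha] at h1
  rw [Finset.sum_range (fun j => (g j - a) ^ 2)] at h1
  simp only [hgw] at h1
  have h2 := energy_lower m g
  simp only [hgw] at h2
  set Et := ∑ i ∈ range m, ((g i - g (2 * i + 1)) ^ 2 + (g i - g (2 * i + 2)) ^ 2) with hEt
  set Cl := ∑ i ∈ Ico m (2 * m + 1), ∑ j ∈ Ico m (2 * m + 1), (g i - g j) ^ 2 with hCl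
  have hCl0 : 0 ≤ Cl := Finset.sum_nonneg fun i _ => Finset.sum_nonneg fun j _ => sq_nonneg _
  have h3 : Cl / ((m : ℝ) + 1) ≤ Cl := by
    apply div_le_self hCl0
    have : (0 : ℝ) ≤ m := Nat.cast_nonneg m
    linarith
  linarith


/-! ### The lower bound -/

lemma connected_T (m : ℕ) : (T m).Connected := by
  have root : ∀ (k : ℕ) (hk : k < 2 * m + 1), (T m).Reachable ⟨k, hk⟩ ⟨0, by omega⟩ := by
    intro k
    induction k using Nat.strong_induction_on with
    | _ k ih =>
      intro hk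
      rcases Nat.eq_zero_or_pos k with h0 | h0
      · subst h0
        exact SimpleGraph.Reachable.refl _
      · have hp : (k - 1) / 2 < 2 * m + 1 := by omega
        have hadj : (T m).Adj ⟨k, hk⟩ ⟨(k - 1) / 2, hp⟩ := by
          refine ⟨?_, ?_⟩
          · intro h
            have := congrArg Fin.val h
            simp only at this
            omega
          · simp only
            omega
        exact hadj.reachable.trans (ih ((k - 1) / 2) (by omega) hp)
  have : Nonempty (Fin (2 * m + 1)) := ⟨⟨0, by omega⟩⟩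
  refine ⟨fun x y => (root x x.2).trans (root y y.2).symm⟩

lemma edges_lower (m : ℕ) :
    (m : ℝ) * (m + 1) ≤ 2 * (Fintype.card (T m).edgeSet : ℝ) := by
  have h := (T m).sum_degrees_eq_twice_card_edges
  have h2 : m * (m + 1) ≤ ∑ v, (T m).degree v := by
    set S : Finset (Fin (2 * m + 1)) := Finset.univ.filter (fun x => m ≤ (x : ℕ)) with hS
    have hScard : S.card = m + 1 := by
      have hmap : S.map Fin.valEmbedding = Ico m (2 * m + 1) := by
        ext k
        simp only [hS, Finset.mem_map, Finset.mem_filter, Finset.mem_univ, true_and,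
          Fin.valEmbedding_apply, Finset.mem_Ico]
        constructor
        · rintro ⟨x, hx, rfl⟩
          exact ⟨hx, x.2⟩
        · rintro ⟨h1, h2⟩
          exact ⟨⟨k, h2⟩, h1, rfl⟩
      rw [← Finset.card_map Fin.valEmbedding, hmap, Nat.card_Ico]
      omega
    calc m * (m + 1) = ∑ v ∈ S, m := by
          rw [Finset.sum_const, hScard, smul_eq_mul, mul_comm]
      _ ≤ ∑ v ∈ S, (T m).degree v := by
          apply Finset.sum_le_sum
          intro v hv
          rw [hS, Finset.mem_filter] at hv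
          rw [← SimpleGraph.card_neighborFinset_eq_degree]
          have hsub : S.erase v ⊆ (T m).neighborFinset v := by
            intro y hy
            rw [Finset.mem_erase, hS, Finset.mem_filter] at hy
            rw [SimpleGraph.mem_neighborFinset]
            exact ⟨fun h => hy.1 h.symm, Or.inr (Or.inr (Or.inr (Or.inr ⟨hv.2, hy.2.2⟩)))⟩
          have h3 := Finset.card_le_card hsub
          rw [Finset.card_erase_of_mem (by rw [hS, Finset.mem_filter]; exact hv), hScard] at h3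
          omega
      _ ≤ ∑ v, (T m).degree v :=
          Finset.sum_le_sum_of_subset (Finset.subset_univ _)
  rw [h, SimpleGraph.edgeFinset_card] at h2
  exact_mod_cast h2

/-- depth of the vertex `i` in the tree, truncated at the depth of the first leaf. -/
def dep (m i : ℕ) : ℕ := Nat.log 2 (min (i + 1) (m + 1))

lemma dep_mono (m : ℕ) {i j : ℕ} (h : i ≤ j) : dep m i ≤ dep m j := by
  unfold dep
  apply Nat.log_mono_right
  omega

lemma dep_child (m : ℕ) {i j : ℕ} (h : j ≤ 2 * i + 2) : dep m j ≤ dep m i + 1 := by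
  unfold dep
  set A := min (i + 1) (m + 1) with hA
  have hA1 : 1 ≤ A := by omega
  have h1 : min (j + 1) (m + 1) ≤ 2 * A + 1 := by omega
  have h2 : Nat.log 2 (2 * A + 1) = Nat.log 2 A + 1 := by
    rw [Nat.log_of_one_lt_of_le (by norm_num) (by omega)]
    congr 2
    omega
  calc Nat.log 2 (min (j + 1) (m + 1)) ≤ Nat.log 2 (2 * A + 1) := Nat.log_mono_right h1
    _ = _ := h2

lemma dep_leaf (m : ℕ) {i : ℕ} (h : m ≤ i) : dep m i = Nat.log 2 (m + 1) := by
  unfold dep
  congr 1
  omega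

lemma drift_T (m : ℕ) (x : Fin (2 * m + 1)) :
    -2 ≤ ∑ y ∈ (T m).neighborFinset x, ((dep m x : ℝ) - (dep m y : ℝ)) := by
  have h1 : ∀ y ∈ (T m).neighborFinset x, -((if (y : ℕ) = 2 * x + 1 then (1 : ℝ) else 0) +
      (if (y : ℕ) = 2 * x + 2 then (1 : ℝ) else 0)) ≤ ((dep m x : ℝ) - (dep m y : ℝ)) := by
    intro y hy
    rw [SimpleGraph.mem_neighborFinset] at hy
    obtain ⟨hne, hy⟩ := hy
    rcases hy with h | h | h | h | h
    · rw [if_pos h, if_neg (by omega)]
      have : (dep m y : ℝ) ≤ (dep m x : ℝ) + 1 := by exact_mod_cast dep_child m (by omega)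
      linarith
    · rw [if_pos h, if_neg (by omega)]
      have : (dep m y : ℝ) ≤ (dep m x : ℝ) + 1 := by exact_mod_cast dep_child m (by omega)
      linarith
    · rw [if_neg (by omega), if_neg (by omega)]
      have : (dep m y : ℝ) ≤ (dep m x : ℝ) := by exact_mod_cast dep_mono m (by omega)
      linarith
    · rw [if_neg (by omega), if_neg (by omega)]
      have : (dep m y : ℝ) ≤ (dep m x : ℝ) := by exact_mod_cast dep_mono m (by omega)
      linarith
    · have hx := x.2
      have hy := y.2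
      rw [if_neg (by omega), if_neg (by omega), dep_leaf m h.1, dep_leaf m h.2]
      simp
  refine le_trans ?_ (Finset.sum_le_sum h1)
  rw [Finset.sum_neg_distrib, neg_le_neg_iff, Finset.sum_add_distrib]
  have h2 : ∀ c : ℕ, ∑ y ∈ (T m).neighborFinset x, (if (y : ℕ) = c then (1 : ℝ) else 0) ≤ 1 := by
    intro c
    rw [← Finset.sum_filter, Finset.sum_const, nsmul_eq_mul, mul_one]
    have : (((T m).neighborFinset x).filter
        (fun y : Fin (2 * m + 1) => (y : ℕ) = c)).card ≤ 1 := by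
      apply Finset.card_le_one.2
      intro a ha b hb
      rw [Finset.mem_filter] at ha hb
      exact Fin.ext (ha.2.trans hb.2.symm)
    exact_mod_cast this
  have := h2 (2 * x + 1)
  have := h2 (2 * x + 2)
  linarith

/-- the starting vertex: the root. -/
def e0 (m : ℕ) : Fin (2 * m + 1) → ℝ := fun x => if x = ⟨0, by omega⟩ then 1 else 0

lemma e0_nonneg (m : ℕ) (x : Fin (2 * m + 1)) : 0 ≤ e0 m x := by
  unfold e0; split_ifs <;> norm_num

lemma sum_e0 (m : ℕ) : ∑ x, e0 m x = 1 := by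
  unfold e0
  rw [Finset.sum_ite_eq' Finset.univ (⟨0, by omega⟩ : Fin (2 * m + 1)) (fun _ => (1 : ℝ))]
  simp

lemma norm1_e0 (m : ℕ) : norm1 (e0 m) = 1 := by
  unfold norm1
  simp only [abs_of_nonneg (e0_nonneg m _)]
  exact sum_e0 m

lemma mean_e0 (m : ℕ) : mean (e0 m) = 1 / (2 * m + 1) := by
  unfold mean
  rw [sum_e0, Fintype.card_fin]
  push_cast
  rfl

lemma dep_e0 (m : ℕ) : ∑ x : Fin (2 * m + 1), (dep m x : ℝ) * e0 m x = 0 := by
  apply Finset.sum_eq_zero
  intro x _
  unfold e0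
  split_ifs with h
  · subst h
    simp [dep]
  · simp

/-- few vertices lie at small depth. -/
lemma count_low (m k : ℕ) (hk : 2 ^ (k + 2) ≤ m + 1) :
    8 * ((Finset.univ.filter (fun x : Fin (2 * m + 1) => dep m x < k)).card : ℝ) ≤ 2 * m + 1 := by
  have h1 : (Finset.univ.filter (fun x : Fin (2 * m + 1) => dep m x < k)).card ≤
      (range (2 ^ k - 1)).card := by
    apply Finset.card_le_card_of_injOn (fun x : Fin (2 * m + 1) => (x : ℕ))
    · intro x hx
      have hx' : dep m x < k := by simpa using hx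
      unfold dep at hx'
      have h2 := Nat.lt_pow_of_log_lt (by norm_num) hx'
      have h3 : 2 ^ k * 4 ≤ m + 1 := by
        rw [pow_add] at hk
        simpa using hk
      simp only [Finset.coe_range, Set.mem_Iio]
      omega
    · intro x _ y _ h
      exact Fin.ext h
  rw [Finset.card_range] at h1
  have h3 : 2 ^ k * 4 ≤ m + 1 := by
    rw [pow_add] at hk
    simpa using hk
  have h4 : 1 ≤ 2 ^ k := Nat.one_le_two_pow
  have h5 : 8 * (Finset.univ.filter (fun x : Fin (2 * m + 1) => dep m x < k)).card ≤ 2 * m + 1 := by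
    omega
  exact_mod_cast h5

lemma norm1_lower (m k : ℕ) (hk0 : 0 < k) (hk : 2 ^ (k + 2) ≤ m + 1)
    (w : Fin (2 * m + 1) → ℝ) (hw : ∀ x, 0 ≤ w x) (hw1 : ∑ x, w x = 1) :
    7 / 4 - 2 / (k : ℝ) * ∑ x : Fin (2 * m + 1), (dep m x : ℝ) * w x ≤ norm1 (fun x => w x - mean (e0 m)) := by
  rw [mean_e0]
  have hk' : (0 : ℝ) < k := by exact_mod_cast hk0
  set n : ℝ := 2 * m + 1 with hn
  have hn0 : 0 < n := by positivity
  have hpt : ∀ x : Fin (2 * m + 1),
      1 / n - 2 / n * (if dep m x < k then (1 : ℝ) else 0) + w x -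
        2 / (k : ℝ) * ((dep m x : ℝ) * w x) ≤ |w x - 1 / n| := by
    intro x
    have hwx := hw x
    by_cases h : dep m x < k
    · rw [if_pos h]
      have h1 : 0 ≤ 2 / (k : ℝ) * ((dep m x : ℝ) * w x) := by positivity
      have h2 := le_abs_self (w x - 1 / n)
      have h3 : 2 / n * 1 = 1 / n + 1 / n := by ring
      rw [h3]
      linarith
    · rw [if_neg h]
      push Not at h
      have h1 : (k : ℝ) ≤ dep m x := by exact_mod_cast h
      have h2 : 2 * w x ≤ 2 / (k : ℝ) * ((dep m x : ℝ) * w x) := by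
        have h3 : 2 / (k : ℝ) * ((dep m x : ℝ) * w x) = 2 * w x * ((dep m x : ℝ) / k) := by ring
        rw [h3]
        have h4 : 1 ≤ (dep m x : ℝ) / k := by rw [le_div_iff₀ hk']; linarith
        nlinarith
      have h3 := neg_abs_le (w x - 1 / n)
      linarith
  have hsum := Finset.sum_le_sum (fun x (_ : x ∈ Finset.univ) => hpt x)
  unfold norm1
  refine le_trans ?_ hsum
  rw [Finset.sum_sub_distrib, Finset.sum_add_distrib, Finset.sum_sub_distrib, ← Finset.mul_sum,
    ← Finset.mul_sum, hw1, ← Finset.sum_filter]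
  simp only [Finset.sum_const, Finset.card_univ, nsmul_eq_mul, Fintype.card_fin, mul_one]
  push_cast
  rw [← hn]
  have hc := count_low m k hk
  rw [← hn] at hc
  have h1 : n * (1 / n) = 1 := by field_simp
  have h2 : 2 / n * ((Finset.univ.filter (fun x : Fin (2 * m + 1) => dep m x < k)).card : ℝ) ≤
      1 / 4 := by
    rw [div_mul_eq_mul_div, div_le_iff₀ hn0]
    linarith
  linarith

lemma expDist_lower (m k : ℕ) (hk0 : 0 < k) (hk : 2 ^ (k + 2) ≤ m + 1) (t : ℕ) :
    7 / 4 - 2 / (k : ℝ) * (t / (Fintype.card (T m).edgeSet : ℝ)) ≤ expDist (T m) t (e0 m) := by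
  have hm7 : 7 ≤ m := by
    have h1 : 2 ^ 3 ≤ 2 ^ (k + 2) := Nat.pow_le_pow_right (by norm_num) (by omega)
    omega
  have hm7' : (7 : ℝ) ≤ m := by exact_mod_cast hm7
  have hN := edges_lower m
  have hN1 : (1 : ℝ) ≤ (Fintype.card (T m).edgeSet : ℝ) := by nlinarith
  have hN1' : 1 ≤ Fintype.card (T m).edgeSet := by exact_mod_cast hN1
  set N : ℝ := (Fintype.card (T m).edgeSet : ℝ) with hNdef
  have hNt : 0 < N ^ t := by positivity
  unfold expDist
  rw [card_seq, ← hNdef, le_div_iff₀ hNt]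
  have h1 := Finset.sum_le_sum (fun (e : Fin t → (T m).edgeSet) (_ : e ∈ Finset.univ) =>
    norm1_lower m k hk0 hk (state (T m) t e (e0 m)) (state_nonneg (T m) (e0 m) (e0_nonneg m) t e)
      (by rw [state_mass, sum_e0]))
  refine le_trans ?_ h1
  rw [Finset.sum_sub_distrib, ← Finset.mul_sum]
  simp only [Finset.sum_const, Finset.card_univ, nsmul_eq_mul]
  rw [card_seq, ← hNdef]
  have h2 := sum_state_drift (T m) (fun x => (dep m x : ℝ)) (e0 m) (drift_T m) (e0_nonneg m)
    (sum_e0 m) hN1' t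
  rw [dep_e0, zero_add, ← hNdef] at h2
  have h3 := mul_le_mul_of_nonneg_left h2 (show (0 : ℝ) ≤ 2 / (k : ℝ) by positivity)
  have h4 : (7 / 4 - 2 / (k : ℝ) * (t / N)) * N ^ t =
      N ^ t * (7 / 4) - 2 / (k : ℝ) * (N ^ t * (t / N)) := by ring
  rw [h4]
  linarith

/-- lower bound on the mixing time of `T m`. -/
lemma mixTime_lower (m k : ℕ) (hk0 : 0 < k) (hk : 2 ^ (k + 2) ≤ m + 1) (ε : ℝ) (hε : 0 < ε)
    (hε1 : ε < 1) :
    3 / 8 * (k : ℝ) * (Fintype.card (T m).edgeSet : ℝ) ≤ (mixTime (T m) ε : ℝ) := by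
  have hm7 : 7 ≤ m := by
    have h1 : 2 ^ 3 ≤ 2 ^ (k + 2) := Nat.pow_le_pow_right (by norm_num) (by omega)
    omega
  have hm7' : (7 : ℝ) ≤ m := by exact_mod_cast hm7
  have hN := edges_lower m
  have hN1 : (1 : ℝ) ≤ (Fintype.card (T m).edgeSet : ℝ) := by nlinarith
  have hmem : mixTime (T m) ε ∈
      {t : ℕ | ∀ v : Fin (2 * m + 1) → ℝ, norm1 v = 1 → expDist (T m) t v ≤ ε} := by
    apply Nat.sInf_mem
    exact mix_nonempty (T m) 3 (by norm_num) (poincare_T m) (by linarith) ε hε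
  have h1 := hmem (e0 m) (norm1_e0 m)
  have h2 := expDist_lower m k hk0 hk (mixTime (T m) ε)
  have hk' : (0 : ℝ) < k := by exact_mod_cast hk0
  set N : ℝ := (Fintype.card (T m).edgeSet : ℝ) with hNdef
  set t : ℝ := (mixTime (T m) ε : ℝ) with ht
  have h3 : 3 / 4 ≤ 2 / (k : ℝ) * (t / N) := by linarith
  have h4 : 2 / (k : ℝ) * (t / N) = 2 * t / (k * N) := by
    field_simp
  rw [h4, le_div_iff₀ (by positivity)] at h3
  linarith

lemma max_bound (m : ℕ) (hm : 1 ≤ m) :
    max (gam (T m)) ((2 * (m : ℝ) + 1) * Real.log (2 * m + 1)) ≤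
      8 * (Fintype.card (T m).edgeSet : ℝ) := by
  have hN := edges_lower m
  have hm' : (1 : ℝ) ≤ m := by exact_mod_cast hm
  apply max_le
  · unfold gam
    have h2 := le_lam2 (T m) (by rw [Fintype.card_fin]; omega) 3 (by norm_num) (poincare_T m)
    rw [div_le_iff₀ (by linarith)]
    have hN0 : 0 ≤ (Fintype.card (T m).edgeSet : ℝ) := Nat.cast_nonneg _
    have h3 : 1 / 8 ≤ lam2 (T m) := by
      refine le_trans ?_ h2
      norm_num
    nlinarith
  · have h1 : Real.log (2 * m + 1) ≤ 2 * m := by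
      have := Real.log_le_sub_one_of_pos (show (0 : ℝ) < 2 * m + 1 by positivity)
      linarith
    have h2 : (2 * (m : ℝ) + 1) * Real.log (2 * m + 1) ≤ (2 * (m : ℝ) + 1) * (2 * m) :=
      mul_le_mul_of_nonneg_left h1 (by positivity)
    nlinarith

/-- **Main result.**
(i) For every `ε ∈ (0,1)` and every `m ≥ 1`, the graph `T m` (which has `n = 2 m + 1` vertices) is
connected and `t_{ε,1}(T m) ≥ (3/64) (log₂ n - 4) max (γ(T m), n log n)`.
(ii) For every `ε ∈ (0,1)` the ratio `t_{ε,1}(G) / max (γ(G), n log n)` is unbounded above as `G`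
ranges over all connected graphs.
(iii) More precisely, for every `ε ∈ (0,1)` and every function `φ` with `φ(n) = o(log n)` there is a
connected graph `G` on `n ≥ 2` vertices with `t_{ε,1}(G) > φ(n) max (γ(G), n log n)`. -/
theorem result :
    (∀ ε : ℝ, 0 < ε → ε < 1 → ∀ m : ℕ, 1 ≤ m → (T m).Connected ∧
      3 / 64 * (Real.logb 2 (2 * (m : ℝ) + 1) - 4) *
        max (gam (T m)) ((2 * (m : ℝ) + 1) * Real.log (2 * m + 1)) ≤ (mixTime (T m) ε : ℝ)) ∧
    (∀ ε : ℝ, 0 < ε → ε < 1 → ¬ ∃ C : ℝ, ∀ (V : Type) [Fintype V] [DecidableEq V] [Nonempty V]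
      (G : SimpleGraph V) [DecidableRel G.Adj], 2 ≤ Fintype.card V → G.Connected →
        (mixTime G ε : ℝ) ≤ C * max (gam G) ((Fintype.card V : ℝ) * Real.log (Fintype.card V))) ∧
    (∀ ε : ℝ, 0 < ε → ε < 1 → ∀ φ : ℕ → ℝ,
      φ =o[Filter.atTop] (fun n : ℕ => Real.log n) →
      ∃ (V : Type) (_ : Fintype V) (_ : DecidableEq V) (_ : Nonempty V)
        (G : SimpleGraph V) (_ : DecidableRel G.Adj), 2 ≤ Fintype.card V ∧ G.Connected ∧
        φ (Fintype.card V) * max (gam G) ((Fintype.card V : ℝ) * Real.log (Fintype.card V)) <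
          (mixTime G ε : ℝ)) := by
  have hmax0 : ∀ m : ℕ, 1 ≤ m →
      0 < max (gam (T m)) ((2 * (m : ℝ) + 1) * Real.log (2 * m + 1)) := by
    intro m hm
    apply lt_max_of_lt_right
    have hm' : (1 : ℝ) ≤ m := by exact_mod_cast hm
    have := Real.log_pos (show (1 : ℝ) < 2 * m + 1 by linarith)
    positivity
  have key : ∀ ε : ℝ, 0 < ε → ε < 1 → ∀ m : ℕ, 1 ≤ m → (T m).Connected ∧
      3 / 64 * (Real.logb 2 (2 * (m : ℝ) + 1) - 4) *
        max (gam (T m)) ((2 * (m : ℝ) + 1) * Real.log (2 * m + 1)) ≤ (mixTime (T m) ε : ℝ) := by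
    intro ε hε hε1 m hm
    refine ⟨connected_T m, ?_⟩
    set K := Nat.log 2 (m + 1) with hK
    have hM := hmax0 m hm
    set M := max (gam (T m)) ((2 * (m : ℝ) + 1) * Real.log (2 * m + 1)) with hMdef
    have hlogK : Real.logb 2 (2 * (m : ℝ) + 1) ≤ (K : ℝ) + 2 := by
      have h1 : m + 1 < 2 ^ (K + 1) := Nat.lt_pow_succ_log_self (by norm_num) (m + 1)
      have h2 : (2 * (m : ℝ) + 1) ≤ 2 ^ (K + 2) := by
        have h3 : 2 * m + 1 ≤ 2 ^ (K + 2) := by
          rw [pow_succ]; omega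
        exact_mod_cast h3
      calc Real.logb 2 (2 * (m : ℝ) + 1) ≤ Real.logb 2 ((2 : ℝ) ^ (K + 2)) :=
            Real.logb_le_logb_of_le (by norm_num) (by positivity) h2
        _ = (K : ℝ) + 2 := by
            rw [← Real.rpow_natCast, Real.logb_rpow (by norm_num) (by norm_num)]
            push_cast
            rfl
    by_cases hK3 : 3 ≤ K
    · have hk : 2 ^ ((K - 2) + 2) ≤ m + 1 := by
        have : K - 2 + 2 = K := by omega
        rw [this]
        exact Nat.pow_log_le_self 2 (by omega)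
      have h1 := mixTime_lower m (K - 2) (by omega) hk ε hε hε1
      have h2 := max_bound m hm
      rw [← hMdef] at h2
      have hKc : ((K - 2 : ℕ) : ℝ) = (K : ℝ) - 2 := by
        rw [Nat.cast_sub (by omega)]; norm_num
      rw [hKc] at h1
      have hK3' : (3 : ℝ) ≤ K := by exact_mod_cast hK3
      have h3 : 3 / 64 * (Real.logb 2 (2 * (m : ℝ) + 1) - 4) * M ≤
          3 / 64 * ((K : ℝ) - 2) * M := by
        apply mul_le_mul_of_nonneg_right _ hM.le
        linarith
      have h4 : 3 / 64 * ((K : ℝ) - 2) * M ≤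
          3 / 64 * ((K : ℝ) - 2) * (8 * (Fintype.card (T m).edgeSet : ℝ)) := by
        apply mul_le_mul_of_nonneg_left h2
        linarith
      linarith
    · have hK2 : (K : ℝ) ≤ 2 := by
        have : K ≤ 2 := by omega
        exact_mod_cast this
      have h1 : 3 / 64 * (Real.logb 2 (2 * (m : ℝ) + 1) - 4) * M ≤ 0 := by
        apply mul_nonpos_of_nonpos_of_nonneg _ hM.le
        linarith
      exact h1.trans (Nat.cast_nonneg _)
  have third : ∀ ε : ℝ, 0 < ε → ε < 1 → ∀ φ : ℕ → ℝ,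
      φ =o[Filter.atTop] (fun n : ℕ => Real.log n) →
      ∃ m : ℕ, 1 ≤ m ∧ φ (2 * m + 1) *
        max (gam (T m)) ((2 * (m : ℝ) + 1) * Real.log (2 * m + 1)) < (mixTime (T m) ε : ℝ) := by
    intro ε hε hε1 φ hφ
    have h1 := hφ.def (show (0 : ℝ) < 1 / 64 by norm_num)
    rw [Filter.eventually_atTop] at h1
    obtain ⟨n0, hn0⟩ := h1
    set m := max n0 (2 ^ 40) with hm
    have hm1 : 2 ^ 40 ≤ m := le_max_right _ _
    have hm2 : n0 ≤ m := le_max_left _ _
    have hm1' : (2 : ℝ) ^ 40 ≤ m := by exact_mod_cast hm1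
    refine ⟨m, by omega, ?_⟩
    obtain ⟨_, h2⟩ := key ε hε hε1 m (by omega)
    refine lt_of_lt_of_le ?_ h2
    apply mul_lt_mul_of_pos_right _ (hmax0 m (by omega))
    have h3 := hn0 (2 * m + 1) (by omega)
    rw [Real.norm_eq_abs, Real.norm_eq_abs] at h3
    push_cast at h3
    have hlogpos : 0 < Real.log (2 * (m : ℝ) + 1) := Real.log_pos (by linarith)
    rw [abs_of_pos hlogpos] at h3
    have h4 : φ (2 * m + 1) ≤ 1 / 64 * Real.log (2 * (m : ℝ) + 1) := (le_abs_self _).trans h3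
    have h5 : Real.log (2 * (m : ℝ) + 1) = Real.logb 2 (2 * (m : ℝ) + 1) * Real.log 2 := by
      rw [Real.logb, div_mul_cancel₀ _ (Real.log_pos (by norm_num)).ne']
    have h6 : (40 : ℝ) ≤ Real.logb 2 (2 * (m : ℝ) + 1) := by
      have : Real.logb 2 ((2 : ℝ) ^ 40) = 40 := by
        rw [← Real.rpow_natCast, Real.logb_rpow (by norm_num) (by norm_num)]
        norm_num
      rw [← this]
      apply Real.logb_le_logb_of_le (by norm_num) (by positivity)
      linarith
    have h7 : Real.log 2 < 0.6931471808 := Real.log_two_lt_d9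
    have h8 : Real.logb 2 (2 * (m : ℝ) + 1) * Real.log 2 ≤ Real.logb 2 (2 * (m : ℝ) + 1) * 1 := by
      apply mul_le_mul_of_nonneg_left _ (by linarith)
      linarith
    rw [h5] at h4
    linarith
  refine ⟨key, ?_, ?_⟩
  · intro ε hε hε1
    rintro ⟨C, hC⟩
    obtain ⟨m, hm, hlt⟩ := third ε hε hε1 (fun _ => C) (by
      apply Asymptotics.isLittleO_const_left.2
      right
      refine Filter.Tendsto.comp tendsto_norm_atTop_atTop ?_
      exact Real.tendsto_log_atTop.comp tendsto_natCast_atTop_atTop)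
    have hup := hC (Fin (2 * m + 1)) (T m) (by rw [Fintype.card_fin]; omega) (connected_T m)
    rw [Fintype.card_fin] at hup
    push_cast at hup
    linarith
  · intro ε hε hε1 φ hφ
    obtain ⟨m, hm, hlt⟩ := third ε hε hε1 φ hφ
    refine ⟨Fin (2 * m + 1), inferInstance, inferInstance, inferInstance, T m, inferInstance,
      by rw [Fintype.card_fin]; omega, connected_T m, ?_⟩
    rw [Fintype.card_fin]
    push_cast
    exact hlt

end Pool.Agent.Results.MP_9aa425_pr.TreeClique
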